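import Pool.Agent.R343.SunDet4

set_option autoImplicit false

namespace Pool.Agent.Results.MP_f57d9c_nt.TwiceDetResidue

open Finset Matrix

/-- the determinant `D_p(δ₁, δ₂)`; the Jacobi symbol of Mathlib is the Legendre symbol when `p` is
an odd prime. The indices `j, k` run over `0, 1, …, (p - 1) / 2`. -/
def D (p : ℕ) (δ₁ δ₂ : ℤ) : ℤ :=
  (Matrix.of fun j k : Fin ((p - 1) / 2 + 1) =>
    jacobiSym (((j : ℕ) : ℤ) + ((k : ℕ) : ℤ)) p + jacobiSym (((j : ℕ) : ℤ) - ((k : ℕ) : ℤ)) p +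
      δ₁ * jacobiSym (((j : ℕ) : ℤ) ^ 2 + δ₂ * ((k : ℕ) : ℤ) ^ 2) p).det

open Pool.Agent.R343.SunDet

theorem sum_even {R : Type*} [AddCommMonoid R] (q : ℕ) (g : ℕ → R) (hg : ∀ s, g (2 * s + 1) = 0) :
    ∑ m ∈ range (2 * q + 1), g m = ∑ s ∈ range (q + 1), g (2 * s) := by
  induction q with
  | zero => simp
  | succ q ih =>
    rw [show 2 * (q + 1) + 1 = 2 * q + 1 + 1 + 1 by ring, Finset.sum_range_succ,
      Finset.sum_range_succ, ih, hg, add_zero, Finset.sum_range_succ _ (q + 1)]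
    congr 1

/-- expansion of the first two terms -/
theorem expand (q : ℕ) {R : Type*} [CommRing R] (j k : R) :
    (j + k) ^ (2 * q) + (j - k) ^ (2 * q) =
      ∑ s ∈ range (q + 1), (j ^ 2) ^ (q - s) * (2 * ((2 * q).choose (2 * s) : R)) * (k ^ 2) ^ s := by
  have h1 : (j + k) ^ (2 * q) + (j - k) ^ (2 * q) = ∑ m ∈ range (2 * q + 1),
      (k ^ m + (-k) ^ m) * j ^ (2 * q - m) * ((2 * q).choose m : R) := by
    rw [show j - k = -k + j by ring, add_comm j k, add_pow, add_pow, ← Finset.sum_add_distrib]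
    apply Finset.sum_congr rfl
    intro m _
    ring
  rw [h1, sum_even]
  · apply Finset.sum_congr rfl
    intro s hs
    rw [mem_range] at hs
    have h2 : 2 * q - 2 * s = 2 * (q - s) := by omega
    rw [h2, pow_mul, pow_mul, pow_mul, neg_sq]
    ring
  · intro s
    rw [pow_succ, pow_succ (-k), pow_mul, pow_mul, neg_sq]
    ring

/-- the coefficient matrix -/
def CC (q : ℕ) {R : Type*} [CommRing R] (δ₁ δ₂ : R) :
    Matrix (Fin (2 * q + 1)) (Fin (2 * q + 1)) R :=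
  Matrix.of fun a b => (if (a : ℕ) + b = 2 * q then δ₁ * (((2 * q).choose b : R) * δ₂ ^ (b : ℕ))
    else 0) + (if (a : ℕ) + b = q then 2 * ((2 * q).choose (2 * b) : R) else 0)

theorem sum_CC (q : ℕ) {R : Type*} [CommRing R] (δ₁ δ₂ x y : R) :
    ∑ a : Fin (2 * q + 1), ∑ b : Fin (2 * q + 1), x ^ (a : ℕ) * CC q δ₁ δ₂ a b * y ^ (b : ℕ) =
      δ₁ * (x + δ₂ * y) ^ (2 * q) +
      ∑ s ∈ range (q + 1), x ^ (q - s) * (2 * ((2 * q).choose (2 * s) : R)) * y ^ s := by
  have h1 : ∀ a b : Fin (2 * q + 1), x ^ (a : ℕ) * CC q δ₁ δ₂ a b * y ^ (b : ℕ) =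
      (if (a : ℕ) + b = 2 * q then x ^ (a : ℕ) * (δ₁ * (((2 * q).choose b : R) * δ₂ ^ (b : ℕ))) *
        y ^ (b : ℕ) else 0) +
      (if (a : ℕ) + b = q then x ^ (a : ℕ) * (2 * ((2 * q).choose (2 * b) : R)) * y ^ (b : ℕ)
        else 0) := by
    intro a b
    simp only [CC, Matrix.of_apply]
    split_ifs <;> ring
  simp only [h1, Finset.sum_add_distrib]
  rw [Finset.sum_comm, Finset.sum_comm (s := univ) (t := univ)
    (f := fun a b : Fin (2 * q + 1) => if (a : ℕ) + b = q then x ^ (a : ℕ) *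
      (2 * ((2 * q).choose (2 * b) : R)) * y ^ (b : ℕ) else 0)]
  congr 1
  · have h2 : ∀ b : Fin (2 * q + 1), (∑ a : Fin (2 * q + 1), if (a : ℕ) + b = 2 * q then
        x ^ (a : ℕ) * (δ₁ * (((2 * q).choose b : R) * δ₂ ^ (b : ℕ))) * y ^ (b : ℕ) else 0) =
        (fun b : ℕ => x ^ (2 * q - b) * (δ₁ * (((2 * q).choose b : R) * δ₂ ^ b)) * y ^ b) b := by
      intro b
      have hb := b.isLt
      rw [Finset.sum_eq_single (⟨2 * q - b, by omega⟩ : Fin (2 * q + 1))]
      · rw [if_pos]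
        simp only
        omega
      · intro a _ ha
        rw [if_neg]
        intro h
        apply ha
        apply Fin.ext
        simp only
        omega
      · intro h; exact absurd (mem_univ _) h
    rw [Finset.sum_congr rfl (fun b _ => h2 b), Fin.sum_univ_eq_sum_range
      (fun b : ℕ => x ^ (2 * q - b) * (δ₁ * (((2 * q).choose b : R) * δ₂ ^ b)) * y ^ b),
      add_comm x, add_pow, Finset.mul_sum]
    apply Finset.sum_congr rfl
    intro b _
    rw [mul_pow]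
    ring
  · have h2 : ∀ b : Fin (2 * q + 1), (∑ a : Fin (2 * q + 1), if (a : ℕ) + b = q then
        x ^ (a : ℕ) * (2 * ((2 * q).choose (2 * b) : R)) * y ^ (b : ℕ) else 0) =
        (fun b : ℕ => if b ≤ q then
          x ^ (q - b) * (2 * ((2 * q).choose (2 * b) : R)) * y ^ b else 0) b := by
      intro b
      have hb := b.isLt
      simp only
      split_ifs with hbq
      · rw [Finset.sum_eq_single (⟨q - b, by omega⟩ : Fin (2 * q + 1))]
        · rw [if_pos]
          simp only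
          omega
        · intro a _ ha
          rw [if_neg]
          intro h
          apply ha
          apply Fin.ext
          simp only
          omega
        · intro h; exact absurd (mem_univ _) h
      · apply Finset.sum_eq_zero
        intro a _
        rw [if_neg]
        omega
    rw [Finset.sum_congr rfl (fun b _ => h2 b), Fin.sum_univ_eq_sum_range
      (fun b : ℕ => if b ≤ q then
          x ^ (q - b) * (2 * ((2 * q).choose (2 * b) : R)) * y ^ b else 0),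
      show 2 * q + 1 = (q + 1) + q by ring, Finset.sum_range_add]
    have h3 : ∑ x_1 ∈ range q, (if q + 1 + x_1 ≤ q then x ^ (q - (q + 1 + x_1)) *
        (2 * ((2 * q).choose (2 * (q + 1 + x_1)) : R)) * y ^ (q + 1 + x_1) else 0) = 0 := by
      apply Finset.sum_eq_zero
      intro b _
      rw [if_neg (by omega)]
    rw [h3, add_zero]
    apply Finset.sum_congr rfl
    intro b hb
    rw [mem_range] at hb
    rw [if_pos (by omega)]

theorem det_CC (q : ℕ) {R : Type*} [CommRing R] (δ₁ δ₂ : R) (hq : 0 < q) :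
    ∃ ε : ℤ, (ε = 1 ∨ ε = -1) ∧ (CC q δ₁ δ₂).det = (ε : R) * (δ₁ ^ (2 * q + 1) *
      ((∏ a ∈ range (2 * q + 1), ((2 * q).choose a : R)) * ∏ a ∈ range (2 * q + 1), δ₂ ^ a)) := by
  have h1 := Matrix.det_permute' (Fin.revPerm : Equiv.Perm (Fin (2 * q + 1))) (CC q δ₁ δ₂)
  have h2 : ((CC q δ₁ δ₂).submatrix id (Fin.revPerm : Equiv.Perm (Fin (2 * q + 1)))).det =
      δ₁ ^ (2 * q + 1) * ((∏ a ∈ range (2 * q + 1), ((2 * q).choose a : R)) *
      ∏ a ∈ range (2 * q + 1), δ₂ ^ a) := by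
    rw [Matrix.det_of_isUpperTriangular]
    · have h3 : ∀ i : Fin (2 * q + 1), (CC q δ₁ δ₂).submatrix id Fin.revPerm i i =
          (fun a : ℕ => δ₁ * (((2 * q).choose (2 * q + 1 - 1 - a) : R) * δ₂ ^ (2 * q + 1 - 1 - a)))
            (i : ℕ) := by
        intro i
        have hi := i.isLt
        rw [Matrix.submatrix_apply]
        simp only [CC, Matrix.of_apply, id_eq, Fin.revPerm_apply, Fin.val_rev]
        rw [if_pos (by omega), if_neg (by omega), add_zero]
        have : 2 * q + 1 - ((i : ℕ) + 1) = 2 * q + 1 - 1 - i := by omega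
        rw [this]
      rw [Finset.prod_congr rfl (fun i _ => h3 i), Fin.prod_univ_eq_prod_range
        (fun a : ℕ => δ₁ * (((2 * q).choose (2 * q + 1 - 1 - a) : R) * δ₂ ^ (2 * q + 1 - 1 - a))),
        Finset.prod_range_reflect (fun a => δ₁ * (((2 * q).choose a : R) * δ₂ ^ a)),
        Finset.prod_mul_distrib, Finset.prod_const, card_range, Finset.prod_mul_distrib]
    · intro i j hij
      have hij' : (j : ℕ) < i := hij
      have hi := i.isLt
      rw [Matrix.submatrix_apply]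
      simp only [CC, Matrix.of_apply, id_eq, Fin.revPerm_apply, Fin.val_rev]
      rw [if_neg (by omega), if_neg (by omega), add_zero]
  rcases Int.units_eq_one_or (Equiv.Perm.sign (Fin.revPerm : Equiv.Perm (Fin (2 * q + 1)))) with h | h
  · refine ⟨1, Or.inl rfl, ?_⟩
    rw [h2, h] at h1
    rw [h1]
    simp
  · refine ⟨-1, Or.inr rfl, ?_⟩
    rw [h2, h] at h1
    rw [h1]
    simp

section

variable (p : ℕ) [hp : Fact p.Prime]

theorem det_eq (q : ℕ) (hpq : p = 4 * q + 1) (hq : 0 < q) (δ₁ δ₂ : ℤ) :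
    ∃ v : ZMod p, v ≠ 0 ∧ ((D p δ₁ δ₂ : ℤ) : ZMod p) =
      v ^ 2 * (CC q (δ₁ : ZMod p) (δ₂ : ZMod p)).det := by
  have hn : (p - 1) / 2 = 2 * q := by omega
  set x : Fin (2 * q + 1) → ZMod p := fun j => (((j : ℕ) : ZMod p)) ^ 2 with hx
  refine ⟨(Matrix.vandermonde x).det, ?_, ?_⟩
  · rw [Matrix.det_vandermonde_ne_zero_iff]
    intro i j hij
    simp only [hx] at hij
    have h1 : (((i : ℕ) : ZMod p) - ((j : ℕ) : ZMod p)) * (((i : ℕ) : ZMod p) + ((j : ℕ) : ZMod p)) = 0 := by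
      linear_combination hij
    have hi := i.isLt
    have hj := j.isLt
    rcases mul_eq_zero.1 h1 with h | h
    · have h2 := sub_eq_zero.1 h
      rw [ZMod.natCast_eq_natCast_iff'] at h2
      rw [Nat.mod_eq_of_lt (by omega), Nat.mod_eq_of_lt (by omega)] at h2
      exact Fin.ext h2
    · rw [← Nat.cast_add, ZMod.natCast_eq_zero_iff] at h
      rcases Nat.eq_zero_or_pos ((i : ℕ) + j) with h3 | h3
      · apply Fin.ext
        omega
      · have := Nat.le_of_dvd h3 h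
        omega
  · have h1 : ((D p δ₁ δ₂ : ℤ) : ZMod p) = ((Matrix.of fun j k : Fin (2 * q + 1) =>
        jacobiSym (((j : ℕ) : ℤ) + ((k : ℕ) : ℤ)) p + jacobiSym (((j : ℕ) : ℤ) - ((k : ℕ) : ℤ)) p +
        δ₁ * jacobiSym (((j : ℕ) : ℤ) ^ 2 + δ₂ * ((k : ℕ) : ℤ) ^ 2) p).map
          (Int.castRingHom (ZMod p))).det := by
      rw [← RingHom.mapMatrix_apply, ← RingHom.map_det]
      unfold D
      rw [hn]
      rfl
    rw [h1]
    have h2 : ((Matrix.of fun j k : Fin (2 * q + 1) =>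
        jacobiSym (((j : ℕ) : ℤ) + ((k : ℕ) : ℤ)) p + jacobiSym (((j : ℕ) : ℤ) - ((k : ℕ) : ℤ)) p +
        δ₁ * jacobiSym (((j : ℕ) : ℤ) ^ 2 + δ₂ * ((k : ℕ) : ℤ) ^ 2) p).map
          (Int.castRingHom (ZMod p))) = Matrix.vandermonde x * CC q (δ₁ : ZMod p) (δ₂ : ZMod p) *
            (Matrix.vandermonde x)ᵀ := by
      ext j k
      rw [Matrix.mul_apply]
      simp only [Matrix.mul_apply, Matrix.transpose_apply, Matrix.vandermonde_apply, Finset.sum_mul]
      rw [Finset.sum_comm, sum_CC, Matrix.map_apply, Matrix.of_apply]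
      rw [← jacobiSym.legendreSym.to_jacobiSym, ← jacobiSym.legendreSym.to_jacobiSym,
        ← jacobiSym.legendreSym.to_jacobiSym]
      have h3 : p / 2 = 2 * q := by omega
      simp only [eq_intCast, Int.cast_add, Int.cast_mul]
      rw [legendreSym.eq_pow, legendreSym.eq_pow, legendreSym.eq_pow, h3]
      push_cast
      rw [expand q, add_comm]
    rw [h2, Matrix.det_mul, Matrix.det_mul, Matrix.det_transpose]
    ring

theorem leg_pm (q : ℕ) (hpq : p = 4 * q + 1) (hq : 0 < q) (ε : ℤ) (hε : ε = 1 ∨ ε = -1) :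
    legendreSym p ε = 1 := by
  rcases hε with rfl | rfl
  · exact legendreSym.at_one p
  · rw [legendreSym.at_neg_one (by omega), ZMod.χ₄_nat_one_mod_four (by omega)]

theorem leg_pow (a : ℤ) (k : ℕ) : legendreSym p (a ^ k) = legendreSym p a ^ k := by
  rw [← legendreSym.hom_apply, map_pow, legendreSym.hom_apply]

theorem leg_prod_choose (q : ℕ) (hpq : p = 4 * q + 1) (hq : 0 < q) :
    legendreSym p (∏ a ∈ range (2 * q + 1), ((2 * q).choose a : ℤ)) = (-1) ^ q := by
  have h1 : range (2 * q + 1) = range (q + (q + 1)) := by congr 1; omega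
  rw [h1, Finset.prod_range_add, Finset.prod_range_succ' (fun x => ((2 * q).choose (q + x) : ℤ)),
    add_zero]
  have h2 : ∏ x ∈ range q, ((2 * q).choose (q + (x + 1)) : ℤ) =
      ∏ x ∈ range q, ((2 * q).choose x : ℤ) := by
    rw [← Finset.prod_range_reflect (fun x => ((2 * q).choose x : ℤ)) q]
    apply Finset.prod_congr rfl
    intro x hx
    rw [mem_range] at hx
    congr 1
    apply Nat.choose_symm_of_eq_add
    omega
  rw [h2]
  have h3 : legendreSym p (∏ x ∈ range q, ((2 * q).choose x : ℤ)) ^ 2 = 1 := by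
    apply legendreSym.sq_one
    rw [Int.cast_prod, Finset.prod_ne_zero_iff]
    intro i hi
    rw [mem_range] at hi
    rw [Int.cast_natCast]
    exact choose_ne_zero p _ _ (by omega) (by omega)
  have h4 : legendreSym p (((2 * q).choose q : ℕ) : ℤ) = (-1) ^ q := by
    rw [← leg_fact p q hpq hq]
    have e1 := Nat.choose_mul_factorial_mul_factorial (show q ≤ 2 * q by omega)
    have e2 : 2 * q - q = q := by omega
    rw [e2] at e1
    rw [← e1, Nat.cast_mul, Nat.cast_mul, legendreSym.mul, legendreSym.mul, mul_assoc, ← sq,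
      leg_fact_sq p q (by omega), mul_one]
  rw [legendreSym.mul, legendreSym.mul, h4]
  calc _ = legendreSym p (∏ x ∈ range q, ((2 * q).choose x : ℤ)) ^ 2 * (-1) ^ q := by ring
    _ = _ := by rw [h3, one_mul]

theorem leg_two_D (q : ℕ) (hpq : p = 4 * q + 1) (hq : 0 < q) (δ₁ δ₂ : ℤ)
    (h₁ : δ₁ = 1 ∨ δ₁ = -1) (h₂ : δ₂ = 1 ∨ δ₂ = -1) :
    legendreSym p (2 * D p δ₁ δ₂) = 1 := by
  obtain ⟨v, hv, hD⟩ := det_eq p q hpq hq δ₁ δ₂
  obtain ⟨ε, hε, hC⟩ := det_CC q (δ₁ : ZMod p) (δ₂ : ZMod p) hq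
  rw [hC] at hD
  set a : ℤ := ε * (δ₁ ^ (2 * q + 1) * ((∏ a ∈ range (2 * q + 1), ((2 * q).choose a : ℤ)) *
    ∏ a ∈ range (2 * q + 1), δ₂ ^ a)) with ha
  have h3 : ((D p δ₁ δ₂ : ℤ) : ZMod p) = v ^ 2 * (a : ZMod p) := by
    rw [hD, ha]
    push_cast
    ring
  have h4 : legendreSym p (D p δ₁ δ₂) = legendreSym p a := by
    unfold legendreSym
    rw [h3, map_mul, map_pow, quadraticChar_sq_one hv, one_mul]
  rw [legendreSym.mul, h4, ha, legendreSym.mul, legendreSym.mul, legendreSym.mul,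
    leg_pm p q hpq hq ε hε, leg_pow, leg_pm p q hpq hq δ₁ h₁, leg_prod_choose p q hpq hq,
    leg_prod, leg_two p q hpq hq]
  have h5 : ∏ i ∈ range (2 * q + 1), legendreSym p (δ₂ ^ i) = 1 := by
    apply Finset.prod_eq_one
    intro i _
    rw [leg_pow, leg_pm p q hpq hq δ₂ h₂, one_pow]
  have h6 : ((-1 : ℤ) ^ q) * (-1) ^ q = 1 := by
    rw [← pow_add, ← two_mul, pow_mul]; norm_num
  rw [h5]
  calc _ = ((-1 : ℤ) ^ q) * (-1) ^ q := by ring
    _ = 1 := h6

end

/-- **Q1.** `2 D_p(δ₁, δ₂)` is a quadratic residue modulo `p`. -/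
theorem result (p : ℕ) (hp : p.Prime) (h4 : p % 4 = 1) (δ₁ δ₂ : ℤ)
    (h₁ : δ₁ = 1 ∨ δ₁ = -1) (h₂ : δ₂ = 1 ∨ δ₂ = -1) :
    ¬ (p : ℤ) ∣ 2 * D p δ₁ δ₂ ∧ ∃ y : ℤ, 2 * D p δ₁ δ₂ ≡ y ^ 2 [ZMOD p] := by
  have : Fact p.Prime := ⟨hp⟩
  obtain ⟨q, hq⟩ : ∃ q, p = 4 * q + 1 := ⟨p / 4, by omega⟩
  have hq0 : 0 < q := by
    rcases Nat.eq_zero_or_pos q with h | h
    · rw [h] at hq
      exact absurd hq hp.one_lt.ne'
    · exact h
  have h := leg_two_D p q hq hq0 δ₁ δ₂ h₁ h₂
  have h0 : ((2 * D p δ₁ δ₂ : ℤ) : ZMod p) ≠ 0 := by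
    intro h0
    rw [(legendreSym.eq_zero_iff p _).2 h0] at h
    exact absurd h (by norm_num)
  constructor
  · rw [← ZMod.intCast_zmod_eq_zero_iff_dvd _ p]
    exact h0
  · obtain ⟨y, hy⟩ := (legendreSym.eq_one_iff p h0).1 h
    refine ⟨(y.val : ℤ), ?_⟩
    rw [← ZMod.intCast_eq_intCast_iff, hy]
    push_cast
    rw [ZMod.natCast_zmod_val, sq]

end Pool.Agent.Results.MP_f57d9c_nt.TwiceDetResidue
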